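import Pool.Agent.Run7.h241.CS.Fld
import Pool.Agent.Run7.h241.CS.TIE
import Pool.Agent.Run7.h241.CS.ALG
import Pool.Agent.Run7.h13.CS.CNT1
import Pool.Agent.Run7.h13.CS.CNT
import Pool.Agent.Run7.h13.CS.MON
import Pool.Agent.Run7.h13.CS.Conic
import Pool.Agent.Run7.h191.CS.LOC
import Pool.Agent.Run7.h202.CS.RAT
import Pool.Agent.Run7.h224.CS.CNT2

/-!
# MP_176ace_nt (Q1): every signature with six more factors

For all `n ≥ 85`, all odd `n ≥ 47`, all `n ≥ 35` prime to `6` and all `n ≥ 68` not divisible by `6`,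
and for EVERY signature `(r₁, r₂)` of degree `n`: class groups of number fields of degree `n` and
signature `(r₁, r₂)` contain `(ℤ/m)^(r₂ + 6)` for every `m`, together with `(ℤ/n)^R`, and the
splitting and the total ramification of finitely many primes can be prescribed.
-/

set_option autoImplicit false

namespace Pool.Agent.Results.MP_176ace_nt.AllSignaturesSix

open NumberField

/-- `Fields n r₁ r₂ κ`: outside the prime divisors of some `Z > 0` which depends only on `n`, `r₁`,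
`r₂`, `κ`, for all `m ≥ 2`, `N`, `R` and all disjoint finite sets of primes `S`, `T` (the primes of
`T` not dividing `m`), there is a number field of degree `n`, signature `(r₁, r₂)`, absolute
discriminant larger than `N`, with subgroups `(ℤ/m)^(r₂ + κ)` and `(ℤ/n)^R` of the class group, in
which the primes of `S` split completely and the primes of `T` ramify totally. -/
def Fields (n r₁ r₂ κ : ℕ) : Prop :=
  ∃ Z : ℕ, 0 < Z ∧ ∀ m N R : ℕ, 2 ≤ m → ∀ S T : Finset ℕ,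
    (∀ p ∈ S, p.Prime ∧ ¬ p ∣ Z) → (∀ q ∈ T, q.Prime ∧ ¬ q ∣ Z ∧ ¬ q ∣ m) → Disjoint S T →
    ∃ (K : Type) (_ : Field K) (_ : NumberField K), Module.finrank ℚ K = n ∧
      InfinitePlace.nrRealPlaces K = r₁ ∧ InfinitePlace.nrComplexPlaces K = r₂ ∧
      (N : ℤ) < |discr K| ∧
      (∃ f : Multiplicative (Fin (r₂ + κ) → ZMod m) →* ClassGroup (𝓞 K), Function.Injective f) ∧
      (∃ f : Multiplicative (Fin R → ZMod n) →* ClassGroup (𝓞 K), Function.Injective f) ∧
      (∀ p ∈ S, ∃ P : Fin n → Ideal (𝓞 K), Function.Injective P ∧ (∀ i, (P i).IsPrime) ∧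
        ∏ i, P i = Ideal.span {(p : 𝓞 K)}) ∧
      ∀ q ∈ T, ∃ P : Ideal (𝓞 K), P.IsPrime ∧ P ^ n = Ideal.span {(q : 𝓞 K)}

/-- **Every signature with six more factors.** -/
theorem result (n r₁ r₂ : ℕ) (hn : (35 ≤ n ∧ (n % 6 = 1 ∨ n % 6 = 5)) ∨ (47 ≤ n ∧ n % 2 = 1) ∨
    (68 ≤ n ∧ n % 6 ≠ 0) ∨ 85 ≤ n) (hr : r₁ + 2 * r₂ = n) : Fields n r₁ r₂ 6 := by
  obtain ⟨D, v₁, v₂, h1, h2, h3⟩ := Run7.h241.CS.all6
    (Run7.h13.CS.t_CNT Run7.h13.CS.t_CNT1 Run7.h224.CS.t_CNT2)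
    (Run7.h241.CS.t_TIE Run7.h191.CS.t_LOC Run7.h13.CS.t_MON
      (Run7.h241.CS.Alg.t_ALG Run7.h13.CS.t_CON)) Run7.h202.CS.t_RAT n r₁ r₂ hn hr
  exact Run7.h241.CS.fields_of_data (by omega) (by norm_num) hr D v₁ v₂ h1 h2 h3

end Pool.Agent.Results.MP_176ace_nt.AllSignaturesSix
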