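import Pool.Agent.Run7.h892.CG.Mul3
import Pool.Agent.Run7.h228.CG.IDL
import Pool.Agent.Run7.h228.CG.RAD
import Pool.Agent.Run7.h427.CG.UNI
import Pool.Agent.Run7.h593.CG.COO
import Pool.Agent.Run7.h593.CG.CRT
import Pool.Agent.Run7.h803.CG.AVO
import Pool.Agent.Run7.h803.CG.FLD
import Pool.Agent.Run7.h803.CG.POW
import Pool.Agent.Run7.h930.CG.IMB
import Pool.Agent.Run7.h930.CG.GRQ

/-!
# Classes of order `m` become `n`-th powers of classes of order `m n` in an extension of degree `n`

The problem asks whether `S(d, m)` holds for all `d, m > 1`: the `m`-rank of the class groups of the number fields of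
degree `d` is unbounded. Here: for every number field `F`, every subgroup `A ≅ (ℤ/m)^r` of `Cl(F)` and every `n` there are an
extension `K/F` of degree `n` and a subgroup `H ≅ (ℤ/(m n))^(r - 3 (n - 1) [F : ℚ])` of `Cl(K)` such that the `n`-th power
of every element of `H` is the extension to `K` of a class in `A`. So, up to a loss of rank which does not depend on `m`, the
classes of order `m` of `F` do not capitulate in `K` and become `n`-th powers of classes of order `m n`. In particular
`rank_{m n} Cl(K) ≥ rank_m Cl(F) - 3 (n - 1) [F : ℚ]`, and `S(d, m)` implies `S(d n, m n)`.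

Proof. It is enough to treat primes `n = ℓ`, with the loss `ℓ [F : ℚ] + 1`. Let `c_i` be a basis of `A ≅ (ℤ/m)^R`.
Take pairwise coprime integral ideals `I_i` in the classes `c_i` and `δ` with `(δ) = (∏ I_i) J`, `J` prime to
the `I_i`. In `K = F(δ ^ (1/ℓ))` the ideals `I_i` are `ℓ`-th powers: `I_i 𝓞 K = Q_i ^ ℓ`. Let `M = ℓ m` and `p ∣ M` a prime. The
`y` modulo `p` with `∏ Q_i ^ (M y_i / p) = (β)` principal satisfy `β ^ p = u γ ^ y`, where `u` is a unit and `(γ_i) = I_i ^ m`.
There are at most `p ^ [K : ℚ]` classes of units modulo `p`-th powers. If `y`, `y'` give the same class then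
`η ^ p = γ ^ (y - y')` for some `η ∈ K`. If `p ≠ ℓ` the norm to `F` gives `y = y'`; if `p = ℓ` then such `η`, for different
`y`, are independent modulo `F`, and there are at most `ℓ` of them (they are linearly independent over `F`, by the trace).
So the relations of order `p` among the `Q_i` form a space of dimension at most `[K : ℚ] + 1`, for each `p`, and the
classes of the `Q_i` generate a group which contains `(ℤ/M)^(R - [K : ℚ] - 1)`.
-/

set_option autoImplicit false

namespace Pool.Agent.Results.MP_176ace_nt.ClassesBecomePowers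

open NumberField Pool.Agent.Run7

/-- Let `m, n ≥ 1`, let `F` be a number field and `f` an injective homomorphism from `(ℤ/m)^r` to the class group of `F`.
There are an extension `K/F` of degree `n` and an injective homomorphism `g` from `(ℤ/(m n))^(r - 3 (n - 1) [F : ℚ])` to
the class group of `K` such that the `n`-th power of every value of `g` is the extension to `K` of a value of `f`. -/
theorem result (m n : ℕ) (hm : 0 < m) (hn : 0 < n) (F : Type) [Field F] [NumberField F] (r : ℕ)
    (f : Multiplicative (Fin r → ZMod m) →* ClassGroup (𝓞 F)) (hf : Function.Injective f) :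
    ∃ (K : Type) (_ : Field K) (_ : NumberField K) (_ : Algebra F K)
      (g : Multiplicative (Fin (r - 3 * (n - 1) * Module.finrank ℚ F) → ZMod (m * n)) →*
        ClassGroup (𝓞 K)),
      Module.finrank F K = n ∧ Function.Injective g ∧
        ∀ v, ∃ w, g v ^ n = ClassGroup.extendedHom (𝓞 F) (𝓞 K) (f w) := by
  have hGRQ : h892.CG.S_GRQ := _root_.Run7.h930.CG.t_GRQ h593.CG.t_COO _root_.Run7.h930.CG.t_LOC
    h593.CG.t_CRT
  obtain ⟨K, _, _, _, hK, hL⟩ := h892.CG.mult3 hGRQ _root_.Run7.h930.CG.t_IMB h427.CG.t_UNI
    h228.CG.t_RAD (h228.CG.t_IDL _root_.Run7.h803.CG.t_AVO) _root_.Run7.h803.CG.t_FLD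
    _root_.Run7.h803.CG.t_POW n hn m hm F r f hf
  have h2 : 3 * Module.finrank ℚ F * (n - 1) = 3 * (n - 1) * Module.finrank ℚ F := by ring
  rw [mul_comm n m, h2] at hL
  obtain ⟨g, hg, hg'⟩ := hL
  exact ⟨K, inferInstance, inferInstance, inferInstance, g, hK, hg, hg'⟩

end Pool.Agent.Results.MP_176ace_nt.ClassesBecomePowers
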