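import Pool.Agent.Run7.h373.CK.Fin
import Pool.Agent.Run7.h373.CK.Core
import Pool.Agent.Run7.h227.CK.RED
import Pool.Agent.Run7.h354.CK.LOC
import Pool.Agent.Run7.h593.CK.SEL
import Pool.Agent.Run7.h600.CK.GOOD
import Pool.Agent.Run7.h600.CK.IND
import Pool.Agent.Run7.h713.CK.DISC
import Pool.Agent.Run7.h713.CK.IRR
import Pool.Agent.Run7.h834.CK.EMB
import Pool.Agent.Run7.h141.CK.SPL
import Pool.Agent.Run7.h141.CK.TST
import Pool.Agent.Run7.h270.CK.REA
import Pool.Agent.W349.CG.Weil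
import Pool.Agent.W289.CG.Asm

/-!
# MP_176ace_nt (Q1): seven more factors

For `n` divisible by `6`, `n ≥ 18`, and all `m ≥ 2` there are totally complex and totally real number fields of
degree `n` whose class group contains `(ℤ/m)^(r + 7)`, where `r` is the number of complex places.
-/

set_option autoImplicit false

namespace Pool.Agent.Results.MP_176ace_nt.ExcessSeven

open Polynomial NumberField nonZeroDivisors Pool.Agent Pool.Agent.Run7.h373.CK

/-- Let `n ≥ 18` be divisible by `6` and let `r` be `n / 2` or `0`.  For every `m ≥ 2` there are number fields of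
degree `n` with exactly `r` complex places and of arbitrarily large discriminant whose class group contains
`(ℤ/m)^(r + 7)`. -/
theorem result :
    ∀ n r m : ℕ, 18 ≤ n → 6 ∣ n → (r = n / 2 ∨ r = 0) → 2 ≤ m → ∀ N : ℕ,
      ∃ (K : Type) (_ : Field K) (_ : NumberField K), Module.finrank ℚ K = n ∧
        InfinitePlace.nrComplexPlaces K = r ∧ (N : ℤ) < |discr K| ∧
        ∃ f : Multiplicative (Fin (r + 7) → ZMod m) →* ClassGroup (𝓞 K),
          Function.Injective f := by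
  intro n r m hn h6 hr hm N
  obtain ⟨e, rfl⟩ := h6
  obtain ⟨D, a, ha, hfac⟩ := t_DATA Run7.h593.CK.t_SEL e (by omega)
  have hcore : S_CORE := t_CORE Run7.h354.CK.t_LOC Run7.h834.CK.t_EMB
    (Run7.h600.CK.t_GOOD (Run7.h141.CK.t_TST W349.CG.WeilT.main Run7.h141.CK.t_SPL))
    (Run7.h600.CK.t_IND Run7.h834.CK.t_EMB Run7.h227.CK.t_RED) Run7.h713.CK.t_IRR
    Run7.h713.CK.t_DISC
  have hcR : (0 : ℝ) < D.c := by exact_mod_cast D.hc
  rcases hr with hr | rfl
  · obtain ⟨B, hB⟩ := Run7.h270.CK.t_REA0 D.A D.hA (by rw [D.hn]; omega)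
      (by rw [D.hn]; exact ⟨3 * e, by ring⟩)
    set ε : ℝ := D.c / (|B| + 1) with hε
    have hB1 : 0 < |B| + 1 := by positivity
    have hε0 : 0 < ε := div_pos hcR hB1
    obtain ⟨y, hy1, hym⟩ : ∃ y : ℝ, 1 < y ∧ y ^ m < 1 + ε := by
      have h1 : Filter.Tendsto (fun y : ℝ => y ^ m) (nhdsWithin 1 (Set.Ioi 1)) (nhds (1 ^ m)) :=
        ((continuous_pow m).tendsto 1).mono_left nhdsWithin_le_nhds
      have h2 : ∀ᶠ y : ℝ in nhdsWithin 1 (Set.Ioi 1), y ^ m < 1 + ε :=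
        h1.eventually (gt_mem_nhds (by rw [one_pow]; linarith))
      have h3 : ∀ᶠ y : ℝ in nhdsWithin 1 (Set.Ioi 1), 1 < y := self_mem_nhdsWithin
      obtain ⟨y, h4, h5⟩ := (h3.and h2).exists
      exact ⟨y, h4, h5⟩
    obtain ⟨s, t, K, hK1, hK2, hs, hxs, hys, hfr, hdisc, hreal, hcl⟩ :=
      hcore (6 * e) (6 * e + 5) D m N (by omega) hm 1 y le_rfl hy1
    have hsR : (0 : ℝ) < s := by exact_mod_cast hs
    have htR : (s : ℝ) < t := by linarith
    have h1 : (s : ℝ) ^ m < (t : ℝ) ^ m := pow_lt_pow_left₀ htR hsR.le (by omega)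
    have h2 : (t : ℝ) ^ m < (1 + ε) * (s : ℝ) ^ m := by
      calc (t : ℝ) ^ m < (y * s) ^ m := pow_lt_pow_left₀ hys (by linarith) (by omega)
        _ = y ^ m * (s : ℝ) ^ m := mul_pow _ _ _
        _ ≤ (1 + ε) * (s : ℝ) ^ m := mul_le_mul_of_nonneg_right hym.le (by positivity)
    have hr0 : InfinitePlace.nrRealPlaces K = 0 := by
      rw [hreal]
      apply hB
      rw [lt_div_iff₀ (by linarith)]
      have h3 : (t : ℝ) ^ m - (s : ℝ) ^ m < ε * (s : ℝ) ^ m := by linarith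
      have h4 : (|B| + 1) * ((t : ℝ) ^ m - (s : ℝ) ^ m) < (|B| + 1) * (ε * (s : ℝ) ^ m) :=
        mul_lt_mul_of_pos_left h3 hB1
      have h5 : (|B| + 1) * (ε * (s : ℝ) ^ m) = (s : ℝ) ^ m * D.c := by
        rw [hε]; field_simp
      have h6 : B * ((t : ℝ) ^ m - (s : ℝ) ^ m) ≤ (|B| + 1) * ((t : ℝ) ^ m - (s : ℝ) ^ m) :=
        mul_le_mul_of_nonneg_right (by linarith [le_abs_self B]) (by linarith)
      linarith
    have h7 := W289.CG.rank_eq K
    have h8 := InfinitePlace.card_add_two_mul_card_eq_rank K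
    refine ⟨K, hK1, hK2, hfr, by omega, hdisc, ?_⟩
    apply hcl
    omega
  · obtain ⟨v₀, hv0, hv⟩ := Run7.h270.CK.t_REA1 (6 * e) a (by omega) ha
    have hx1 : (1 : ℝ) ≤ 1 + D.c / v₀ := by
      have : (0 : ℝ) < D.c / v₀ := by positivity
      linarith
    obtain ⟨s, t, K, hK1, hK2, hs, hxs, hys, hfr, hdisc, hreal, hcl⟩ :=
      hcore (6 * e) (6 * e + 5) D m N (by omega) hm (1 + D.c / v₀) (1 + D.c / v₀ + 1) hx1
        (by linarith)
    have hsR : (0 : ℝ) < s := by exact_mod_cast hs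
    have hq : 0 < (D.c : ℝ) / v₀ * (s : ℝ) ^ m := by positivity
    have h2 : (1 + D.c / v₀) * (s : ℝ) ^ m < (t : ℝ) ^ m := by
      calc (1 + D.c / v₀) * (s : ℝ) ^ m ≤ (1 + D.c / v₀) ^ m * (s : ℝ) ^ m :=
            mul_le_mul_of_nonneg_right (le_self_pow₀ hx1 (by omega)) (by positivity)
        _ = ((1 + D.c / v₀) * s) ^ m := (mul_pow _ _ _).symm
        _ < (t : ℝ) ^ m := pow_lt_pow_left₀ hxs (by positivity) (by omega)
    have h3 : D.c / v₀ * (s : ℝ) ^ m < (t : ℝ) ^ m - (s : ℝ) ^ m := by linarith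
    have h3' : 0 < (t : ℝ) ^ m - (s : ℝ) ^ m := by linarith
    have hr0 : InfinitePlace.nrRealPlaces K = 6 * e := by
      rw [hreal]
      have h4 := hv ((s : ℝ) ^ m * D.c / ((t : ℝ) ^ m - (s : ℝ) ^ m))
        (div_pos (by positivity) h3') (by
          rw [div_lt_iff₀ h3']
          calc (s : ℝ) ^ m * D.c = v₀ * (D.c / v₀ * (s : ℝ) ^ m) := by field_simp
            _ < v₀ * ((t : ℝ) ^ m - (s : ℝ) ^ m) := mul_lt_mul_of_pos_left h3 hv0)
      simp_rw [hfac]
      exact h4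
    have h7 := W289.CG.rank_eq K
    have h8 := InfinitePlace.card_add_two_mul_card_eq_rank K
    refine ⟨K, hK1, hK2, hfr, by omega, hdisc, ?_⟩
    apply hcl
    omega

end Pool.Agent.Results.MP_176ace_nt.ExcessSeven
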